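import Mathlib

set_option autoImplicit false

namespace Pool.Agent.Results.MP_5e3b67_co.No

open Finset

/-- Every output bit is determined by at most `K` input bits. -/
def IsLocal {m : ℕ} (K : ℕ) (φ : (Fin m → ZMod 2) → (Fin m → ZMod 2)) : Prop :=
  ∀ i, ∃ S : Finset (Fin m), S.card ≤ K ∧
    ∀ x x' : Fin m → ZMod 2, (∀ j ∈ S, x j = x' j) → φ x i = φ x' i

/-- `L`-Lipschitz for the Hamming distance. -/
def IsLip {m : ℕ} (L : ℝ) (ψ : (Fin m → ZMod 2) → (Fin m → ZMod 2)) : Prop :=
  ∀ y y', (hammingDist (ψ y) (ψ y') : ℝ) ≤ L * hammingDist y y'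

def sc (K L : ℕ) : ℕ → ℕ
  | 0 => 2
  | t + 1 => 4 * (K + 1) * 2 ^ ((L + 1) * sc K L t)

lemma sc_le_succ (K L t : ℕ) : sc K L t ≤ sc K L (t + 1) := by
  have h1 : (L + 1) * sc K L t < 2 ^ ((L + 1) * sc K L t) := Nat.lt_two_pow_self
  have h2 : sc K L t ≤ (L + 1) * sc K L t := Nat.le_mul_of_pos_left _ (by omega)
  have h3 : 2 ^ ((L + 1) * sc K L t) ≤ 4 * (K + 1) * 2 ^ ((L + 1) * sc K L t) :=
    Nat.le_mul_of_pos_left _ (by omega)
  rw [sc]; omega

lemma sc_mono (K L : ℕ) : Monotone (sc K L) := monotone_nat_of_le_succ (sc_le_succ K L)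

/-- The combinatorial core. -/
lemma core (K L m : ℕ) (hm : sc K L (2 * L + 1) ≤ m) (o : Fin m) (T : Fin m → Finset (Fin m))
    (hT : ∀ i, (T i).card ≤ L) (ho : ∀ i, o ∈ T i)
    (hk : ∀ P : Finset (Fin m), o ∈ P → ∃ (k : Fin m) (S : Finset (Fin m)), S.card ≤ K ∧
      ∀ i, i ≠ k → ¬ ∀ j ∈ S, (j ∈ T i ↔ j ∈ P)) : False := by
  classical
  let R : Fin m → Finset (Fin m) := fun j => univ.filter fun i => j ∈ T i
  have hm0 : 0 < m := o.pos
  have hsum : ∀ B : Finset (Fin m), ∑ j ∈ B, (R j).card = ∑ i, (T i ∩ B).card := by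
    intro B
    simp only [R, card_filter]
    rw [sum_comm]
    refine sum_congr rfl fun i _ => ?_
    rw [← card_filter, inter_comm, filter_mem_eq_inter]
  have hTL : ∑ i, (T i).card ≤ L * m := by
    calc ∑ i, (T i).card ≤ ∑ _i : Fin m, L := sum_le_sum fun i _ => hT i
      _ = L * m := by simp [mul_comm]
  let W : ℕ → Finset (Fin m) := fun t =>
    univ.filter fun j => m < sc K L (t + 1) * (R j).card ∧ sc K L t * (R j).card ≤ m
  let Bad : ℕ → Finset (Fin m) := fun t => univ.filter fun i => (T i ∩ W t).Nonempty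
  have hBad : ∑ t ∈ range (2 * L + 1), (Bad t).card ≤ L * m := by
    calc ∑ t ∈ range (2 * L + 1), (Bad t).card
        ≤ ∑ t ∈ range (2 * L + 1), ∑ i, (T i ∩ W t).card := by
          refine sum_le_sum fun t _ => ?_
          simp only [Bad, card_filter]
          refine sum_le_sum fun i _ => ?_
          split_ifs with h
          · exact h.card_pos
          · exact Nat.zero_le _
      _ = ∑ i, ∑ t ∈ range (2 * L + 1), (T i ∩ W t).card := sum_comm
      _ ≤ ∑ i, (T i).card := by
          refine sum_le_sum fun i _ => ?_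
          rw [← card_biUnion]
          · exact card_le_card (biUnion_subset.mpr fun t _ => inter_subset_left)
          · have key : ∀ t t', t < t' → Disjoint (T i ∩ W t) (T i ∩ W t') := by
              intro t t' h
              rw [disjoint_left]
              intro j h1 h2
              have a1 := (mem_filter.mp (mem_inter.mp h1).2).2.1
              have a2 := (mem_filter.mp (mem_inter.mp h2).2).2.2
              have := Nat.mul_le_mul_right (R j).card (sc_mono K L (show t + 1 ≤ t' from h))
              omega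
            intro t _ t' _ hne
            rcases lt_or_gt_of_ne hne with h | h
            · exact key t t' h
            · exact (key t' t h).symm
      _ ≤ L * m := hTL
  obtain ⟨t, ht, hb⟩ : ∃ t ∈ range (2 * L + 1), 2 * (Bad t).card ≤ m := by
    by_contra hc
    push Not at hc
    have : ∑ _t ∈ range (2 * L + 1), m ≤ ∑ t ∈ range (2 * L + 1), 2 * (Bad t).card :=
      sum_le_sum fun t ht => (hc t ht).le
    rw [← mul_sum, sum_const, card_range, smul_eq_mul] at this
    nlinarith
  set a := sc K L t with ha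
  set a' := sc K L (t + 1) with ha'
  have ha2 : 2 ≤ a := sc_mono K L (Nat.zero_le t)
  let B : Finset (Fin m) := univ.filter fun j => m < a * (R j).card
  have hB : B.card ≤ (L + 1) * a := by
    have h1 : ∑ _j ∈ B, m ≤ ∑ j ∈ B, a * (R j).card :=
      sum_le_sum fun j hj => (mem_filter.mp hj).2.le
    rw [← mul_sum, sum_const, smul_eq_mul, hsum] at h1
    have h2 : ∑ i, (T i ∩ B).card ≤ L * m :=
      (sum_le_sum fun i _ => card_le_card inter_subset_left).trans hTL
    have h3 : B.card * m ≤ (L * a) * m := by nlinarith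
    have := Nat.le_of_mul_le_mul_right h3 hm0
    nlinarith
  have hoB : o ∈ B := by
    have : (R o).card = m := by simp [R, ho]
    simp only [B, mem_filter, mem_univ, true_and, this]
    nlinarith
  let G : Finset (Fin m) := univ \ Bad t
  have hG : m ≤ 2 * G.card := by
    have : G.card + (Bad t).card = m := by
      simp only [G]; rw [card_sdiff_add_card_eq_card (subset_univ _)]; simp
    omega
  have fib : ∀ P ∈ B.powerset, a' * (G.filter fun i => T i ∩ B = P).card ≤ a' + K * m := by
    intro P _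
    rcases (G.filter fun i => T i ∩ B = P).eq_empty_or_nonempty with h | ⟨i0, hi0⟩
    · rw [h]; simp
    have hoP : o ∈ P := by
      rw [← (mem_filter.mp hi0).2]; exact mem_inter.mpr ⟨ho i0, hoB⟩
    obtain ⟨k, S, hS, hkS⟩ := hk P hoP
    let S' := S.filter fun j => a' * (R j).card ≤ m
    have hsub : (G.filter fun i => T i ∩ B = P) ⊆ insert k (S'.biUnion R) := by
      intro i hi
      obtain ⟨hiG, hiP⟩ := mem_filter.mp hi
      by_cases hik : i = k
      · exact mem_insert.mpr (Or.inl hik)
      refine mem_insert_of_mem ?_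
      have := hkS i hik
      push Not at this
      obtain ⟨j, hj, hjj⟩ := this
      have hjT : j ∈ T i ∧ j ∉ B := by
        rw [← hiP, mem_inter] at hjj
        tauto
      refine mem_biUnion.mpr ⟨j, mem_filter.mpr ⟨hj, ?_⟩, by simp [R, hjT.1]⟩
      by_contra hc
      apply (mem_sdiff.mp hiG).2
      refine mem_filter.mpr ⟨mem_univ _, j, mem_inter.mpr ⟨hjT.1, mem_filter.mpr
        ⟨mem_univ _, not_le.mp hc, ?_⟩⟩⟩
      by_contra hc'
      exact hjT.2 (mem_filter.mpr ⟨mem_univ _, not_le.mp hc'⟩)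
    have h1 : (G.filter fun i => T i ∩ B = P).card ≤ ∑ j ∈ S', (R j).card + 1 :=
      (card_le_card hsub).trans ((card_insert_le _ _).trans (Nat.succ_le_succ card_biUnion_le))
    have h2 : a' * ∑ j ∈ S', (R j).card ≤ K * m := by
      rw [mul_sum]
      calc ∑ j ∈ S', a' * (R j).card ≤ ∑ _j ∈ S', m :=
            sum_le_sum fun j hj => (mem_filter.mp hj).2
        _ = S'.card * m := by simp
        _ ≤ K * m := Nat.mul_le_mul_right _ ((card_filter_le _ _).trans hS)
    nlinarith
  have hGs : G.card = ∑ P ∈ B.powerset, (G.filter fun i => T i ∩ B = P).card :=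
    card_eq_sum_card_fiberwise fun i _ => mem_powerset.mpr inter_subset_right
  set Q := 2 ^ ((L + 1) * a) with hQ
  have hQ0 : 0 < Q := by positivity
  have h1 : a' * G.card ≤ Q * (a' + K * m) := by
    rw [hGs, mul_sum]
    calc _ ≤ ∑ _P ∈ B.powerset, (a' + K * m) := sum_le_sum fib
      _ = 2 ^ B.card * (a' + K * m) := by simp
      _ ≤ Q * (a' + K * m) := Nat.mul_le_mul_right _ (Nat.pow_le_pow_right (by norm_num) hB)
  have e : a' = 4 * (K + 1) * Q := by rw [ha', sc]
  have h2 : a' ≤ m := (sc_mono K L (by have := mem_range.mp ht; omega)).trans hm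
  have h3 : 4 * (K + 1) * G.card ≤ a' + K * m := by
    refine Nat.le_of_mul_le_mul_left ?_ hQ0
    calc Q * (4 * (K + 1) * G.card) = a' * G.card := by rw [e]; ring
      _ ≤ _ := h1
  nlinarith

theorem result (K : ℕ) (L : ℝ) : ∃ N : ℕ, ∀ n, N ≤ n →
    ∀ φ : (Fin (n + 1) → ZMod 2) ≃ (Fin (n + 1) → ZMod 2),
      (∀ x, ∑ i, φ x i = x 0) → IsLocal K φ → ¬ IsLip L φ.symm := by
  classical
  refine ⟨sc K ⌈L⌉₊ (2 * ⌈L⌉₊ + 1), fun n hn φ hφ hloc hlip => ?_⟩
  let x : Fin (n + 1) → ZMod 2 := φ.symm 0
  let z : Fin (n + 1) → Fin (n + 1) → ZMod 2 := fun i => φ.symm (Pi.single i 1)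
  have two : ∀ u v : ZMod 2, u ≠ v ↔ u = v + 1 := by decide
  refine core K ⌈L⌉₊ (n + 1) (by omega) 0 (fun i => univ.filter fun j => z i j ≠ x j) ?_ ?_ ?_
  · intro i
    have h1 := hlip (Pi.single i 1) 0
    have h2 : hammingDist (Pi.single i (1 : ZMod 2) : Fin (n + 1) → ZMod 2) 0 = 1 := by
      rw [hammingDist, card_eq_one]
      refine ⟨i, ?_⟩
      ext j
      by_cases h : j = i <;> simp [h]
    rw [h2] at h1
    have h3 : (hammingDist (z i) x : ℝ) ≤ ⌈L⌉₊ := by
      have := Nat.le_ceil L
      simp only [Nat.cast_one, mul_one] at h1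
      exact h1.trans this
    exact_mod_cast h3
  · intro i
    have h1 := hφ (z i)
    have h2 := hφ x
    simp only [z, x, Equiv.apply_symm_apply] at h1 h2
    simp only [mem_filter, mem_univ, true_and, z, x, ← h1, ← h2]
    simp
  · intro P hP
    let w : Fin (n + 1) → ZMod 2 := fun j => if j ∈ P then x j + 1 else x j
    have : φ w ≠ 0 := by
      intro h
      have : w = x := by simp only [x, ← h, Equiv.symm_apply_apply]
      have := congrFun this 0
      simp [w, hP] at this
    obtain ⟨k, hk⟩ := Function.ne_iff.mp this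
    obtain ⟨S, hS, hS'⟩ := hloc k
    refine ⟨k, S, hS, fun i hik h => hk ?_⟩
    rw [← hS' (z i) w fun j hj => ?_]
    · simp [z, Ne.symm hik]
    · have := h j hj
      simp only [mem_filter, mem_univ, true_and] at this
      simp only [w]
      split_ifs with hc
      · exact (two _ _).mp (this.mpr hc)
      · by_contra hne
        exact hc (this.mp hne)

end Pool.Agent.Results.MP_5e3b67_co.No
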